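import Pool.Agent.Helper74.WB.St

/-!
# Project WB, module GWA: the first part of the gadget
-/

set_option autoImplicit false

namespace Pool.Agent.Helper10.WB

open Pool.Agent.Helper74 Pool.Agent.Helper74.WB

variable {W : Type}

theorem gG_pb (g : W × List W) (x : Lb W × Bool) (hx : x ∈ gG g) : Pb x := by
  unfold gG at hx
  simp only [List.mem_cons, List.mem_append, List.mem_map, List.mem_reverse,
    List.not_mem_nil, or_false] at hx
  rcases hx with rfl | rfl | ⟨X, _, rfl⟩ | rfl
  · exact Or.inl ⟨false, rfl⟩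
  · exact Or.inr ⟨g.1, rfl⟩
  · exact Or.inr ⟨X, rfl⟩
  · exact Or.inl ⟨true, rfl⟩

theorem pb_ne_y (g : W × List W) (s : Bool) (x : Lb W × Bool) (hx : Pb x) : x ≠ (.y g, s) := by
  rintro rfl
  rcases hx with ⟨i, h⟩ | ⟨X, h⟩
  · simp at h
  · simp at h

theorem pb_ne_t (g : W × List W) (s : Bool) (x : Lb W × Bool) (hx : Pb x) : x ≠ (.t g, s) := by
  rintro rfl
  rcases hx with ⟨i, h⟩ | ⟨X, h⟩
  · simp at h
  · simp at h

/-- The end of the first part. -/
theorem gwa_end (g : W × List W) (σ τ : List (Lb W × Bool)) (hF : Fr g σ)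
    (δ : List (Lb W × Bool))
    (hδ : (∀ x ∈ δ, Pb x) ∨ ∃ δ₀ : List (Lb W × Bool), δ = (.t g, false) :: δ₀ ∧ ∀ x ∈ δ₀, Pb x)
    (h : Gr [((Lb.y g, false), false), ((Lb.y g, true), true)] (δ ++ (.y g, true) :: σ) τ) :
    Mid g σ τ := by
  rw [gr_mand, gr_opt, gr_nil, gr_nil] at h
  cases δ with
  | nil =>
    have e : ap (Lb.y g, false) ((Lb.y g, true) :: σ) = σ := ap_cancel' (Lb.y g, true) σ
    rw [List.nil_append, e] at h
    rcases h with h | h
    · rw [ap_push' (Lb.y g, true) σ (fun y hy => (hF y hy).1)] at h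
      exact Or.inr (Or.inr ⟨[], h.symm, Or.inl (by simp)⟩)
    · exact Or.inl h.symm
  | cons x δ' =>
    have hx : x ≠ (Lb.y g, true) := by
      rcases hδ with hδ | ⟨δ₀, e, -⟩
      · exact pb_ne_y g true x (hδ x (by simp))
      · have e' : x = (Lb.t g, false) := (List.cons.inj e).1
        rw [e']
        simp
    have e : ap (Lb.y g, false) (x :: (δ' ++ (Lb.y g, true) :: σ)) =
        (Lb.y g, false) :: x :: (δ' ++ (Lb.y g, true) :: σ) :=
      ap_push (Lb.y g, false) x _ hx
    rw [List.cons_append, e] at h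
    rcases h with h | h
    · have e2 : ap (Lb.y g, true) ((Lb.y g, false) :: x :: (δ' ++ (Lb.y g, true) :: σ)) =
          x :: (δ' ++ (Lb.y g, true) :: σ) :=
        ap_cancel (Lb.y g, true) (x :: (δ' ++ (Lb.y g, true) :: σ))
      rw [e2] at h
      exact Or.inr (Or.inr ⟨x :: δ', h.symm, hδ⟩)
    · exact Or.inr (Or.inl ⟨_, h.symm⟩)

theorem hGWA (hBAS : StBAS) : StGWA := by
  intro W g σ τ hF h
  have hw : w1 g = ((.y g, true), false) :: ((gG g).map (fun x => (x, true)) ++
      (((.t g, false), true) :: [((.y g, false), false), ((.y g, true), true)])) := by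
    simp [w1, gt]
  rw [hw, gr_mand, ap_push' (Lb.y g, true) σ (fun y hy => (hF y hy).1), gr_append] at h
  obtain ⟨ρ, h1, h2⟩ := h
  obtain ⟨δ₀, e, hδ₀⟩ := (hBAS (Lb W) (.y g, true) [] σ).1 _ ρ
    (by
      intro a ha
      obtain ⟨x, hx, rfl⟩ := List.mem_map.mp ha
      exact pb_ne_y g false x (gG_pb g x hx)) h1
  have hP : ∀ x ∈ δ₀, Pb x := by
    intro x hx
    rcases hδ₀ x hx with h' | ⟨a, ha, rfl⟩
    · simp at h'
    · obtain ⟨z, hz, rfl⟩ := List.mem_map.mp ha
      exact gG_pb g z hz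
  subst e
  rw [gr_opt] at h2
  rcases h2 with h2 | h2
  · have e : ap (Lb.t g, false) (δ₀ ++ (Lb.y g, true) :: σ) =
        ((Lb.t g, false) :: δ₀) ++ (Lb.y g, true) :: σ := by
      refine ap_push' _ _ ?_
      intro y hy
      cases δ₀ with
      | nil =>
        simp only [List.nil_append, List.head?_cons, Option.mem_def, Option.some.injEq] at hy
        subst hy
        simp [iv]
      | cons z δ' =>
        simp only [List.cons_append, List.head?_cons, Option.mem_def, Option.some.injEq] at hy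
        subst hy
        exact pb_ne_t g true z (hP z (by simp))
    rw [e] at h2
    exact gwa_end g σ τ hF _ (Or.inr ⟨δ₀, rfl, hP⟩) h2
  · exact gwa_end g σ τ hF _ (Or.inl hP) h2

end Pool.Agent.Helper10.WB
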